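import Pool.Agent.helper28.GA.SpecA

set_option autoImplicit false

namespace Pool.Agent.helper28.GA

open MvPolynomial Pool.Agent.helper55.ARC

theorem SB_dc {F : Type} [Field F] (a b c : Fin 3 → F) : dt (cr a b) c =
    (a 1 * b 2 + a 2 * b 1) * c 0 + (a 2 * b 0 + a 0 * b 2) * c 1 + (a 0 * b 1 + a 1 * b 0) * c 2 := rfl

theorem SB_dd {F : Type} [Field F] (a b : Fin 3 → F) : dt a b = a 0 * b 0 + a 1 * b 1 + a 2 * b 2 := rfl

theorem SB_crs {F : Type} [Field F] (a b : Fin 3 → F) : cr a b = cr b a := by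
  funext i
  fin_cases i
  · show a 1 * b 2 + a 2 * b 1 = b 1 * a 2 + b 2 * a 1
    ring
  · show a 2 * b 0 + a 0 * b 2 = b 2 * a 0 + b 0 * a 2
    ring
  · show a 0 * b 1 + a 1 * b 0 = b 0 * a 1 + b 1 * a 0
    ring

theorem SB_rot {F : Type} [Field F] (a b c : Fin 3 → F) : dt (cr a b) c = dt (cr a c) b := by
  rw [SB_dc, SB_dc]
  ring

theorem SB_zero {F : Type} [Field F] (a b : Fin 3 → F) (h0 : a 1 * b 2 + a 2 * b 1 = 0)
    (h1 : a 2 * b 0 + a 0 * b 2 = 0) (h2 : a 0 * b 1 + a 1 * b 0 = 0) : cr a b = 0 := by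
  funext i
  fin_cases i
  · exact h0
  · exact h1
  · exact h2

theorem SB_nz {F : Type} [Field F] {h v : Fin 3 → F} (e : dt h v ≠ 0) : h ≠ 0 := by
  rintro rfl
  apply e
  rw [SB_dd]
  show (0 : F) * v 0 + 0 * v 1 + 0 * v 2 = 0
  ring

theorem SB_nz2 {F : Type} [Field F] {h v : Fin 3 → F} (e : dt h v ≠ 0) : v ≠ 0 := by
  rintro rfl
  apply e
  rw [SB_dd]
  show h 0 * (0 : F) + h 1 * 0 + h 2 * 0 = 0
  ring

theorem SB_G1 {F : Type} [Field F] [CharP F 2] {h x y z : Fin 3 → F} (hh : h ≠ 0) (h1 : dt h x = 0) (h2 : dt h y = 0)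
    (h3 : dt h z = 0) : dt (cr x y) z = 0 := by
  by_contra hc
  have t2 : (2 : F) = 0 := CharTwo.two_eq_zero
  apply hh
  rw [SB_dd] at h1 h2 h3
  rw [SB_dc] at hc
  funext i
  fin_cases i
  · show h 0 = 0
    refine (mul_eq_zero.1 (?_ : h 0 * ((x 1 * y 2 + x 2 * y 1) * z 0 + (x 2 * y 0 + x 0 * y 2) * z 1 + (x 0 * y 1 + x 1 * y 0) * z 2) = 0)).resolve_right hc
    linear_combination (y 1 * z 2 + y 2 * z 1) * h1 + (x 1 * z 2 + x 2 * z 1) * h2 + (x 1 * y 2 + x 2 * y 1) * h3 -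
      (h 1 * x 1 * y 1 * z 2 + h 1 * x 1 * y 2 * z 1 + h 1 * x 2 * y 1 * z 1 + h 2 * x 1 * y 2 * z 2 + h 2 * x 2 * y 1 * z 2 + h 2 * x 2 * y 2 * z 1) * t2
  · show h 1 = 0
    refine (mul_eq_zero.1 (?_ : h 1 * ((x 1 * y 2 + x 2 * y 1) * z 0 + (x 2 * y 0 + x 0 * y 2) * z 1 + (x 0 * y 1 + x 1 * y 0) * z 2) = 0)).resolve_right hc
    linear_combination (y 2 * z 0 + y 0 * z 2) * h1 + (x 2 * z 0 + x 0 * z 2) * h2 + (x 2 * y 0 + x 0 * y 2) * h3 -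
      (h 0 * x 0 * y 0 * z 2 + h 0 * x 0 * y 2 * z 0 + h 0 * x 2 * y 0 * z 0 + h 2 * x 0 * y 2 * z 2 + h 2 * x 2 * y 0 * z 2 + h 2 * x 2 * y 2 * z 0) * t2
  · show h 2 = 0
    refine (mul_eq_zero.1 (?_ : h 2 * ((x 1 * y 2 + x 2 * y 1) * z 0 + (x 2 * y 0 + x 0 * y 2) * z 1 + (x 0 * y 1 + x 1 * y 0) * z 2) = 0)).resolve_right hc
    linear_combination (y 0 * z 1 + y 1 * z 0) * h1 + (x 0 * z 1 + x 1 * z 0) * h2 + (x 0 * y 1 + x 1 * y 0) * h3 -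
      (h 0 * x 0 * y 0 * z 1 + h 0 * x 0 * y 1 * z 0 + h 0 * x 1 * y 0 * z 0 + h 1 * x 0 * y 1 * z 1 + h 1 * x 1 * y 0 * z 1 + h 1 * x 1 * y 1 * z 0) * t2

theorem SB_G4 {F : Type} [Field F] [CharP F 2] {a b c v : Fin 3 → F} (hd : dt (cr a b) c ≠ 0) (h1 : dt (cr a b) v = 0)
    (h2 : dt (cr a c) v = 0) : cr a v = 0 := by
  have t2 : (2 : F) = 0 := CharTwo.two_eq_zero
  rw [SB_dc] at hd h1 h2
  refine SB_zero _ _ ?_ ?_ ?_
  · refine (mul_eq_zero.1 (?_ : ((a 1 * b 2 + a 2 * b 1) * c 0 + (a 2 * b 0 + a 0 * b 2) * c 1 + (a 0 * b 1 + a 1 * b 0) * c 2) * (a 1 * v 2 + a 2 * v 1) = 0)).resolve_left hd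
    linear_combination (a 1 * c 2 + a 2 * c 1) * h1 + (a 1 * b 2 + a 2 * b 1) * h2 -
      (a 0 * a 1 * b 2 * c 2 * v 1 + a 0 * a 2 * b 1 * c 1 * v 2 + a 1 * a 2 * b 1 * c 2 * v 0 + a 1 * a 2 * b 2 * c 1 * v 0 + a 1 ^ 2 * b 2 * c 2 * v 0 + a 2 ^ 2 * b 1 * c 1 * v 0) * t2
  · refine (mul_eq_zero.1 (?_ : ((a 1 * b 2 + a 2 * b 1) * c 0 + (a 2 * b 0 + a 0 * b 2) * c 1 + (a 0 * b 1 + a 1 * b 0) * c 2) * (a 2 * v 0 + a 0 * v 2) = 0)).resolve_left hd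
    linear_combination (a 2 * c 0 + a 0 * c 2) * h1 + (a 2 * b 0 + a 0 * b 2) * h2 -
      (a 0 * a 1 * b 2 * c 2 * v 0 + a 0 * a 2 * b 0 * c 2 * v 1 + a 0 * a 2 * b 2 * c 0 * v 1 + a 0 ^ 2 * b 2 * c 2 * v 1 + a 1 * a 2 * b 0 * c 0 * v 2 + a 2 ^ 2 * b 0 * c 0 * v 1) * t2
  · refine (mul_eq_zero.1 (?_ : ((a 1 * b 2 + a 2 * b 1) * c 0 + (a 2 * b 0 + a 0 * b 2) * c 1 + (a 0 * b 1 + a 1 * b 0) * c 2) * (a 0 * v 1 + a 1 * v 0) = 0)).resolve_left hd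
    linear_combination (a 0 * c 1 + a 1 * c 0) * h1 + (a 0 * b 1 + a 1 * b 0) * h2 -
      (a 0 * a 1 * b 0 * c 1 * v 2 + a 0 * a 1 * b 1 * c 0 * v 2 + a 0 * a 2 * b 1 * c 1 * v 0 + a 0 ^ 2 * b 1 * c 1 * v 2 + a 1 * a 2 * b 0 * c 0 * v 1 + a 1 ^ 2 * b 0 * c 0 * v 2) * t2

theorem SB_self {F : Type} [Field F] [CharP F 2] (a b : Fin 3 → F) : dt (cr a a) b = 0 := by
  have t2 : (2 : F) = 0 := CharTwo.two_eq_zero
  rw [SB_dc]
  linear_combination (a 1 * a 2 * b 0 + a 2 * a 0 * b 1 + a 0 * a 1 * b 2) * t2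

theorem SB_qf {F : Type} [Field F] (c : F) (q : Fin 6 → F) (v : Fin 3 → F) : qf (c • q) v = c * qf q v := by
  show (c * q 0) * v 0 ^ 2 + (c * q 1) * v 1 ^ 2 + (c * q 2) * v 2 ^ 2 + (c * q 3) * (v 1 * v 2) + (c * q 4) * (v 0 * v 2) + (c * q 5) * (v 0 * v 1) =
    c * (q 0 * v 0 ^ 2 + q 1 * v 1 ^ 2 + q 2 * v 2 ^ 2 + q 3 * (v 1 * v 2) + q 4 * (v 0 * v 2) + q 5 * (v 0 * v 1))
  ring

/-- the conic of a triple -/
def SB_G {F : Type} [Field F] {α : Type} (p : α → Fin 3 → F) {S : Type} (P : S → Fin 3 → F) (i j k : S) (q : Fin 6 → F) : Prop :=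
  dt (cr (P i) (P j)) (P k) ≠ 0 ∧ q ≠ 0 ∧ qf q (P i) = 0 ∧ qf q (P j) = 0 ∧ qf q (P k) = 0 ∧
  (∀ v : Fin 3 → F, dt (cr (P i) (P j)) v = 0 → cr (P i) v ≠ 0 → cr (P j) v ≠ 0 → qf q v ≠ 0) ∧
  (∀ v : Fin 3 → F, dt (cr (P i) (P k)) v = 0 → cr (P i) v ≠ 0 → cr (P k) v ≠ 0 → qf q v ≠ 0) ∧
  (∀ v : Fin 3 → F, dt (cr (P j) (P k)) v = 0 → cr (P j) v ≠ 0 → cr (P k) v ≠ 0 → qf q v ≠ 0) ∧
  ∀ a, (dt (cr (P i) (P j)) (p a) ≠ 0 ∨ dt (cr (P i) (P k)) (p a) ≠ 0) ∧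
    (dt (cr (P i) (P j)) (p a) ≠ 0 ∨ dt (cr (P j) (P k)) (p a) ≠ 0) ∧
    (dt (cr (P i) (P k)) (p a) ≠ 0 ∨ dt (cr (P j) (P k)) (p a) ≠ 0) ∧
    (dt (cr (P i) (P j)) (p a) ≠ 0 → dt (cr (P i) (P k)) (p a) ≠ 0 → dt (cr (P j) (P k)) (p a) ≠ 0 → qf q (p a) = 0)

section

variable {F : Type} [Field F] {α : Type} {p : α → Fin 3 → F} {S : Type} {P : S → Fin 3 → F}

theorem SB_s1 {i j k : S} {q : Fin 6 → F} (h : SB_G p P i j k q) : SB_G p P j i k q := by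
  obtain ⟨h1, h2, h3, h4, h5, h6, h7, h8, h9⟩ := h
  refine ⟨by rw [SB_crs]; exact h1, h2, h4, h3, h5, ?_, h8, h7, ?_⟩
  · intro v e1 e2 e3
    rw [SB_crs] at e1
    exact h6 v e1 e3 e2
  · intro a
    obtain ⟨g1, g2, g3, g4⟩ := h9 a
    rw [SB_crs (P j) (P i)]
    exact ⟨g2, g1, g3.symm, fun e1 e2 e3 => g4 e1 e3 e2⟩

theorem SB_s2 {i j k : S} {q : Fin 6 → F} (h : SB_G p P i j k q) : SB_G p P i k j q := by
  obtain ⟨h1, h2, h3, h4, h5, h6, h7, h8, h9⟩ := h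
  refine ⟨by rw [SB_rot]; exact h1, h2, h3, h5, h4, h7, h6, ?_, ?_⟩
  · intro v e1 e2 e3
    rw [SB_crs] at e1
    exact h8 v e1 e3 e2
  · intro a
    obtain ⟨g1, g2, g3, g4⟩ := h9 a
    rw [SB_crs (P k) (P j)]
    exact ⟨g1.symm, g3, g2, fun e1 e2 e3 => g4 e2 e1 e3⟩

theorem SB_sc {i j k : S} {q : Fin 6 → F} {c : F} (hc : c ≠ 0) (hq : q ≠ 0) (h : SB_G p P i j k (c • q)) : SB_G p P i j k q := by
  obtain ⟨h1, _, h3, h4, h5, h6, h7, h8, h9⟩ := h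
  have z : ∀ v, qf (c • q) v = 0 → qf q v = 0 := fun v hv => by
    rw [SB_qf] at hv
    exact (mul_eq_zero.1 hv).resolve_left hc
  have n : ∀ v, qf (c • q) v ≠ 0 → qf q v ≠ 0 := fun v hv h0 => hv (by rw [SB_qf, h0, mul_zero])
  exact ⟨h1, hq, z _ h3, z _ h4, z _ h5, fun v e1 e2 e3 => n v (h6 v e1 e2 e3), fun v e1 e2 e3 => n v (h7 v e1 e2 e3),
    fun v e1 e2 e3 => n v (h8 v e1 e2 e3), fun a => ⟨(h9 a).1, (h9 a).2.1, (h9 a).2.2.1, fun e1 e2 e3 => z _ ((h9 a).2.2.2 e1 e2 e3)⟩⟩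

theorem SB_two [CharP F 2] [Fintype α] [DecidableEq α] [DecidableEq F] (hp : ∀ a b d, a ≠ b → a ≠ d → b ≠ d → dt (cr (p a) (p b)) (p d) ≠ 0)
    {h : Fin 3 → F} (hh : h ≠ 0) : (Finset.univ.filter fun a => dt h (p a) = 0).card ≤ 2 := by
  by_contra hc
  obtain ⟨a, ha, b, hb, d, hd, hab, had, hbd⟩ := Finset.two_lt_card.1 (not_le.1 hc)
  rw [Finset.mem_filter] at ha hb hd
  exact hp a b d hab had hbd (SB_G1 hh ha.2 hb.2 hd.2)

theorem SB_five [CharP F 2] [Fintype α] [DecidableEq α] [DecidableEq F] (hp : ∀ a b d, a ≠ b → a ≠ d → b ≠ d → dt (cr (p a) (p b)) (p d) ≠ 0)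
    (h15 : 15 ≤ Fintype.card α) {h1 h2 h3 h4 h5 : Fin 3 → F} (n1 : h1 ≠ 0) (n2 : h2 ≠ 0) (n3 : h3 ≠ 0) (n4 : h4 ≠ 0) (n5 : h5 ≠ 0) :
    ∃ e : Fin 5 → α, Function.Injective e ∧ ∀ i, dt h1 (p (e i)) ≠ 0 ∧ dt h2 (p (e i)) ≠ 0 ∧ dt h3 (p (e i)) ≠ 0 ∧
      dt h4 (p (e i)) ≠ 0 ∧ dt h5 (p (e i)) ≠ 0 := by
  have k1 := SB_two hp n1
  have k2 := SB_two hp n2
  have k3 := SB_two hp n3
  have k4 := SB_two hp n4
  have k5 := SB_two hp n5
  set A1 := Finset.univ.filter fun a => dt h1 (p a) = 0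
  set A2 := Finset.univ.filter fun a => dt h2 (p a) = 0
  set A3 := Finset.univ.filter fun a => dt h3 (p a) = 0
  set A4 := Finset.univ.filter fun a => dt h4 (p a) = 0
  set A5 := Finset.univ.filter fun a => dt h5 (p a) = 0
  have hU : (A1 ∪ (A2 ∪ (A3 ∪ (A4 ∪ A5)))).card ≤ 10 := by
    have u1 := Finset.card_union_le A1 (A2 ∪ (A3 ∪ (A4 ∪ A5)))
    have u2 := Finset.card_union_le A2 (A3 ∪ (A4 ∪ A5))
    have u3 := Finset.card_union_le A3 (A4 ∪ A5)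
    have u4 := Finset.card_union_le A4 A5
    omega
  have hB : Fintype.card (Fin 5) ≤ Fintype.card ↥((A1 ∪ (A2 ∪ (A3 ∪ (A4 ∪ A5))))ᶜ) := by
    rw [Fintype.card_fin, Fintype.card_coe, Finset.card_compl]
    omega
  obtain ⟨e⟩ := Function.Embedding.nonempty_of_card_le hB
  refine ⟨fun i => (e i : α), fun i j hij => e.injective (Subtype.ext hij), fun i => ?_⟩
  have hi := (e i).2
  rw [Finset.mem_compl, Finset.mem_union, Finset.mem_union, Finset.mem_union, Finset.mem_union, not_or, not_or, not_or, not_or,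
    Finset.mem_filter, Finset.mem_filter, Finset.mem_filter, Finset.mem_filter, Finset.mem_filter] at hi
  obtain ⟨i1, i2, i3, i4, i5⟩ := hi
  exact ⟨fun h => i1 ⟨Finset.mem_univ _, h⟩, fun h => i2 ⟨Finset.mem_univ _, h⟩, fun h => i3 ⟨Finset.mem_univ _, h⟩,
    fun h => i4 ⟨Finset.mem_univ _, h⟩, fun h => i5 ⟨Finset.mem_univ _, h⟩⟩

end

/-- a symmetric relation on five points -/
theorem SB_match {S : Type} (e : S → S → Prop)
    (h1 : ∀ i j k, i ≠ j → i ≠ k → j ≠ k → e i j → ¬ e i k)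
    (h2 : ∀ i j k, i ≠ j → i ≠ k → j ≠ k → e i j ∨ e i k ∨ e j k)
    (f : Fin 5 → S) (hf : Function.Injective f) : False := by
  have key : ∀ x1 x2 x3 x4 x5 : S, x1 ≠ x2 → x1 ≠ x3 → x1 ≠ x4 → x1 ≠ x5 → x2 ≠ x3 → x2 ≠ x4 → x2 ≠ x5 → x3 ≠ x4 →
      x3 ≠ x5 → x4 ≠ x5 → e x1 x2 → False := by
    intro x1 x2 x3 x4 x5 n12 n13 n14 n15 n23 n24 n25 n34 n35 n45 h
    have step : ∀ y3 y4 y5 : S, x1 ≠ y3 → x1 ≠ y5 → x2 ≠ y3 → x2 ≠ y5 → y3 ≠ y4 → y3 ≠ y5 → y4 ≠ y5 → e y3 y4 → False := by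
      intro y3 y4 y5 m13 m15 m23 m25 m34 m35 m45 h'
      rcases h2 x1 y3 y5 m13 m15 m35 with g | g | g
      · exact h1 x1 x2 y3 n12 m13 m23 h g
      · exact h1 x1 x2 y5 n12 m15 m25 h g
      · exact h1 y3 y4 y5 m34 m35 m45 h' g
    rcases h2 x3 x4 x5 n34 n35 n45 with g | g | g
    · exact step x3 x4 x5 n13 n15 n23 n25 n34 n35 n45 g
    · exact step x3 x5 x4 n13 n14 n23 n24 n35 n34 n45.symm g
    · exact step x4 x5 x3 n14 n13 n24 n23 n45 n34.symm n35.symm g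
  have ne : ∀ i j : Fin 5, i ≠ j → f i ≠ f j := fun i j hij h => hij (hf h)
  have n01 := ne 0 1 (by decide)
  have n02 := ne 0 2 (by decide)
  have n03 := ne 0 3 (by decide)
  have n04 := ne 0 4 (by decide)
  have n12 := ne 1 2 (by decide)
  have n13 := ne 1 3 (by decide)
  have n14 := ne 1 4 (by decide)
  have n23 := ne 2 3 (by decide)
  have n24 := ne 2 4 (by decide)
  have n34 := ne 3 4 (by decide)
  rcases h2 (f 0) (f 1) (f 2) n01 n02 n12 with g | g | g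
  · exact key (f 0) (f 1) (f 2) (f 3) (f 4) n01 n02 n03 n04 n12 n13 n14 n23 n24 n34 g
  · exact key (f 0) (f 2) (f 1) (f 3) (f 4) n02 n01 n03 n04 n12.symm n23 n24 n13 n14 n34 g
  · exact key (f 1) (f 2) (f 0) (f 3) (f 4) n12 n01.symm n13 n14 n02.symm n23 n24 n03 n04 n34 g

theorem SB (hSB1 : SB1_stmt) (hCJ : CJ_stmt) : SB_stmt := by
  classical
  intro F _ _ α _ _ p S _ _ P c hp h15 h5 hP hcs hc0 hsp hrel
  -- the points of the arc are not zero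
  have hpa : ∀ a, p a ≠ 0 := by
    intro a
    obtain ⟨b, hb⟩ : ∃ b, b ∉ ({a} : Finset α) := by
      by_contra hcon
      push Not at hcon
      have := Finset.card_le_card (fun x _ => hcon x : (Finset.univ : Finset α) ⊆ {a})
      rw [Finset.card_univ, Finset.card_singleton] at this
      omega
    obtain ⟨d, hd⟩ : ∃ d, d ∉ ({a, b} : Finset α) := by
      by_contra hcon
      push Not at hcon
      have := Finset.card_le_card (fun x _ => hcon x : (Finset.univ : Finset α) ⊆ {a, b})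
      have h2 := Finset.card_le_two (a := a) (b := b)
      rw [Finset.card_univ] at this
      omega
    rw [Finset.mem_singleton] at hb
    rw [Finset.mem_insert, Finset.mem_singleton, not_or] at hd
    have h3 := hp b d a (fun h => hd.2 h.symm) hb (fun h => hd.1 h)
    exact SB_nz2 h3
  have hne : ∀ i j k : S, dt (cr (P i) (P j)) (P k) ≠ 0 → i ≠ j ∧ i ≠ k ∧ j ≠ k := by
    intro i j k h
    refine ⟨?_, ?_, ?_⟩
    · rintro rfl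
      exact h (SB_self _ _)
    · rintro rfl
      apply h
      rw [SB_rot, SB_self]
    · rintro rfl
      apply h
      rw [SB_crs, SB_rot, SB_self]
  -- existence
  have hex : ∀ i j k : S, dt (cr (P i) (P j)) (P k) ≠ 0 → ∃ q, SB_G p P i j k q := by
    intro i j k h
    obtain ⟨nij, nik, njk⟩ := hne i j k h
    obtain ⟨q, q0, q1, q2, q3, q4, q5, q6, q7⟩ := hSB1 F (P i) (P j) (P k) (c i j) (c i k) (c j k) h (hc0 _ _ nij)
      (hc0 _ _ nik) (hc0 _ _ njk)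
    exact ⟨q, h, q0, q1, q2, q3, q4, q5, q6, fun a => q7 (p a) (hpa a) (hrel i j k nij nik njk a)⟩
  -- step A
  have hA : ∀ (i j k l : S) (q : Fin 6 → F), SB_G p P i j k q → dt (cr (P i) (P j)) (P l) ≠ 0 → SB_G p P i j l q := by
    intro i j k l q hq hl
    obtain ⟨q', hq'⟩ := hex i j l hl
    have hk := hq.1
    have m1 : cr (P i) (P j) ≠ 0 := SB_nz hk
    have m2 : cr (P i) (P k) ≠ 0 := SB_nz (v := P j) (by rw [SB_rot]; exact hk)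
    have m3 : cr (P j) (P k) ≠ 0 := SB_nz (v := P i) (by rw [SB_rot, SB_crs]; exact hk)
    have m4 : cr (P i) (P l) ≠ 0 := SB_nz (v := P j) (by rw [SB_rot]; exact hl)
    have m5 : cr (P j) (P l) ≠ 0 := SB_nz (v := P i) (by rw [SB_rot, SB_crs]; exact hl)
    obtain ⟨e, he, hi⟩ := SB_five hp h15 m1 m2 m3 m4 m5
    obtain ⟨c', hc', hqq⟩ := hCJ F (fun x => p (e x)) q q' (fun x y z h1 h2 h3 => hp _ _ _ (fun h => h1 (he h))
      (fun h => h2 (he h)) (fun h => h3 (he h))) hq.2.1 hq'.2.1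
      (fun x => (hq.2.2.2.2.2.2.2.2 (e x)).2.2.2 (hi x).1 (hi x).2.1 (hi x).2.2.1)
      (fun x => (hq'.2.2.2.2.2.2.2.2 (e x)).2.2.2 (hi x).1 (hi x).2.2.2.1 (hi x).2.2.2.2)
    rw [hqq] at hq'
    exact SB_sc hc' hq.2.1 hq'
  -- step B
  have hB : ∀ (i j k z : S) (q : Fin 6 → F), SB_G p P i j k q → z ≠ i → z ≠ j → dt (cr (P i) (P j)) (P z) ≠ 0 := by
    intro i j k z q hq hzi hzj h0
    have c1 : cr (P i) (P z) ≠ 0 := hP _ _ hzi.symm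
    have c2 : cr (P j) (P z) ≠ 0 := hP _ _ hzj.symm
    have v1 : qf q (P z) ≠ 0 := hq.2.2.2.2.2.1 (P z) h0 c1 c2
    have v2 : dt (cr (P i) (P k)) (P z) ≠ 0 := fun h => c1 (SB_G4 hq.1 h0 h)
    exact v1 (hA i k j z q (SB_s2 hq) v2).2.2.2.2.1
  have hC : ∀ (i j k z : S) (q : Fin 6 → F), SB_G p P i j k q → z ≠ i → z ≠ j → SB_G p P i j z q :=
    fun i j k z q hq hzi hzj => hA i j k z q hq (hB i j k z q hq hzi hzj)
  -- a first triple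
  have h5' : Fintype.card (Fin 5) ≤ Fintype.card S := by rw [Fintype.card_fin]; exact h5
  obtain ⟨f⟩ := Function.Embedding.nonempty_of_card_le h5'
  have h01 : f 0 ≠ f 1 := fun h => absurd (f.injective h) (by decide)
  obtain ⟨w, hw⟩ := hsp (cr (P (f 0)) (P (f 1))) (hP _ _ h01)
  obtain ⟨q0, hq0⟩ := hex _ _ _ hw
  have hD1 : ∀ z v : S, z ≠ f 0 → v ≠ f 0 → v ≠ z → SB_G p P (f 0) z v q0 := by
    intro z v hz hv hvz
    by_cases h1 : z = f 1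
    · subst h1
      exact hC _ _ _ _ _ hq0 hv hvz
    · exact hC _ _ _ _ _ (SB_s2 (hC _ _ _ _ _ hq0 hz h1)) hv hvz
  have hD : ∀ i j k : S, i ≠ j → i ≠ k → j ≠ k → SB_G p P i j k q0 := by
    intro i j k hij hik hjk
    by_cases h1 : i = f 0
    · subst h1
      exact hD1 _ _ hij.symm hik.symm hjk.symm
    · by_cases h2 : j = f 0
      · subst h2
        exact SB_s1 (hD1 i k h1 hjk.symm hik.symm)
      · exact hC _ _ _ _ _ (SB_s2 (SB_s1 (hD1 i j h1 h2 hij.symm))) hik.symm hjk.symm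
  refine ⟨q0, hq0.2.1, ?_⟩
  by_contra hcon
  push Not at hcon
  obtain ⟨a, ha⟩ := hcon
  refine SB_match (fun i j => dt (cr (P i) (P j)) (p a) = 0) ?_ ?_ f f.injective
  · intro i j k hij hik hjk h h'
    rcases ((hD i j k hij hik hjk).2.2.2.2.2.2.2.2 a).1 with g | g
    · exact g h
    · exact g h'
  · intro i j k hij hik hjk
    by_contra hcc
    rw [not_or, not_or] at hcc
    exact ha (((hD i j k hij hik hjk).2.2.2.2.2.2.2.2 a).2.2.2 hcc.1 hcc.2.1 hcc.2.2)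

end Pool.Agent.helper28.GA
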